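import Mathlib

/-!
# MP_0c20fd_an: the 2-summing norm need not be smooth at an invertible operator

On the two-dimensional space `ℓ_∞²` (real or complex) the invertible operator
`T (a, b) = (a + b, a - b)` has `π₂(T) = ‖T‖ = 2`, and `A ↦ (A (1, 1))₀`, `A ↦ (A (1, -1))₁` are two
different functionals of norm one on `Π₂(ℓ_∞², ℓ_∞²)` with the value `2` at `T`.
-/

set_option autoImplicit false

namespace Pool.Agent.Results.MP_0c20fd_an.HadamardNotSmooth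

section Defs

variable (𝕜 : Type) [RCLike 𝕜] {X : Type} [NormedAddCommGroup X] [NormedSpace 𝕜 X]

/-- The weak `ℓ²` norm of a finite family: the supremum of `(∑ |φ(x_i)|²)^(1/2)` over the closed unit
ball of the dual space. -/
noncomputable def weakTwo {m : ℕ} (x : Fin m → X) : ℝ :=
  ⨆ φ : {φ : X →L[𝕜] 𝕜 // ‖φ‖ ≤ 1}, Real.sqrt (∑ i, ‖φ.1 (x i)‖ ^ 2)

/-- The `2`-summing norm `π₂(T)`: the least `C` with `(∑ ‖T x_i‖²)^(1/2) ≤ C * weakTwo x` for all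
finite families `x`. -/
noncomputable def piTwo (T : X →L[𝕜] X) : ℝ :=
  sInf {C : ℝ | 0 ≤ C ∧ ∀ (m : ℕ) (x : Fin m → X),
    Real.sqrt (∑ i, ‖T (x i)‖ ^ 2) ≤ C * weakTwo 𝕜 x}

/-- The norm of a linear functional on the space `Π₂(X, X)` of all operators on `X` with the norm
`π₂`. -/
noncomputable def dualNorm (φ : (X →L[𝕜] X) →ₗ[𝕜] 𝕜) : ℝ :=
  sInf {C : ℝ | 0 ≤ C ∧ ∀ A : X →L[𝕜] X, ‖φ A‖ ≤ C * piTwo 𝕜 A}

/-- `Π₂(X, X)` is smooth at `T`: there is exactly one functional of norm one on `Π₂(X, X)` whose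
value at `T` is `π₂(T)`. -/
def SmoothAt (T : X →L[𝕜] X) : Prop :=
  ∃! φ : (X →L[𝕜] X) →ₗ[𝕜] 𝕜, dualNorm 𝕜 φ = 1 ∧ φ T = (piTwo 𝕜 T : 𝕜)

end Defs

section Basic

variable {𝕜 : Type} [RCLike 𝕜] {X : Type} [NormedAddCommGroup X] [NormedSpace 𝕜 X]

lemma weak_bdd {m : ℕ} (x : Fin m → X) : BddAbove (Set.range
    fun φ : {φ : X →L[𝕜] 𝕜 // ‖φ‖ ≤ 1} => Real.sqrt (∑ i, ‖φ.1 (x i)‖ ^ 2)) := by
  refine ⟨Real.sqrt (∑ i, ‖x i‖ ^ 2), ?_⟩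
  rintro _ ⟨φ, rfl⟩
  apply Real.sqrt_le_sqrt
  apply Finset.sum_le_sum
  intro i _
  have h := φ.1.le_opNorm (x i)
  have h2 : ‖φ.1‖ * ‖x i‖ ≤ 1 * ‖x i‖ := mul_le_mul_of_nonneg_right φ.2 (norm_nonneg _)
  have h3 : ‖φ.1 (x i)‖ ≤ ‖x i‖ := by linarith
  exact pow_le_pow_left₀ (norm_nonneg _) h3 2

lemma le_weak {m : ℕ} (x : Fin m → X) (φ : X →L[𝕜] 𝕜) (hφ : ‖φ‖ ≤ 1) :
    Real.sqrt (∑ i, ‖φ (x i)‖ ^ 2) ≤ weakTwo 𝕜 x :=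
  le_ciSup (weak_bdd x) (⟨φ, hφ⟩ : {φ : X →L[𝕜] 𝕜 // ‖φ‖ ≤ 1})

lemma weak_nonneg {m : ℕ} (x : Fin m → X) : 0 ≤ weakTwo 𝕜 x :=
  (Real.sqrt_nonneg _).trans (le_weak x 0 (by simp))

lemma sum_le_weak {m : ℕ} (x : Fin m → X) (φ : X →L[𝕜] 𝕜) (hφ : ‖φ‖ ≤ 1) :
    ∑ i, ‖φ (x i)‖ ^ 2 ≤ weakTwo 𝕜 x ^ 2 := by
  have h := le_weak x φ hφ
  rw [Real.sqrt_le_left (weak_nonneg x)] at h
  exact h

lemma weak_single (x : X) : weakTwo 𝕜 (fun _ : Fin 1 => x) ≤ ‖x‖ := by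
  have : Nonempty {φ : X →L[𝕜] 𝕜 // ‖φ‖ ≤ 1} := ⟨⟨0, by simp⟩⟩
  apply ciSup_le
  intro φ
  have h := φ.1.le_opNorm x
  have h2 : ‖φ.1‖ * ‖x‖ ≤ 1 * ‖x‖ := mul_le_mul_of_nonneg_right φ.2 (norm_nonneg _)
  simp only [Finset.univ_unique, Finset.sum_const, Finset.card_singleton, one_smul]
  rw [Real.sqrt_sq (norm_nonneg _)]
  linarith

/-- Every admissible constant dominates `‖A x‖` for `‖x‖ ≤ 1`. -/
lemma norm_le_of_admissible {A : X →L[𝕜] X} {C : ℝ} (hC : 0 ≤ C)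
    (h : ∀ (m : ℕ) (x : Fin m → X), Real.sqrt (∑ i, ‖A (x i)‖ ^ 2) ≤ C * weakTwo 𝕜 x)
    {x : X} (hx : ‖x‖ ≤ 1) : ‖A x‖ ≤ C := by
  have h1 := h 1 (fun _ => x)
  simp only [Finset.univ_unique, Finset.sum_const, Finset.card_singleton, one_smul] at h1
  rw [Real.sqrt_sq (norm_nonneg _)] at h1
  have h2 : C * weakTwo 𝕜 (fun _ : Fin 1 => x) ≤ C * 1 :=
    mul_le_mul_of_nonneg_left ((weak_single x).trans hx) hC
  linarith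

end Basic

section Two

variable (𝕜 : Type) [RCLike 𝕜]

lemma proj_norm_le (j : Fin 2) :
    ‖(ContinuousLinearMap.proj j : (Fin 2 → 𝕜) →L[𝕜] 𝕜)‖ ≤ 1 := by
  apply ContinuousLinearMap.opNorm_le_bound _ zero_le_one
  intro x
  rw [one_mul]
  exact norm_le_pi_norm x j

lemma coord_sum_le {m : ℕ} (x : Fin m → (Fin 2 → 𝕜)) (j : Fin 2) :
    ∑ i, ‖x i j‖ ^ 2 ≤ weakTwo 𝕜 x ^ 2 :=
  sum_le_weak x (ContinuousLinearMap.proj j) (proj_norm_le 𝕜 j)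

lemma admissible (A : (Fin 2 → 𝕜) →L[𝕜] (Fin 2 → 𝕜)) (K : ℝ) (hK : 0 ≤ K)
    (h : ∀ x, ‖A x‖ ≤ K * (‖x 0‖ + ‖x 1‖)) :
    0 ≤ 2 * K ∧ ∀ (m : ℕ) (x : Fin m → (Fin 2 → 𝕜)),
      Real.sqrt (∑ i, ‖A (x i)‖ ^ 2) ≤ 2 * K * weakTwo 𝕜 x := by
  refine ⟨by positivity, fun m x => ?_⟩
  have hw := weak_nonneg (𝕜 := 𝕜) x
  rw [Real.sqrt_le_left (by positivity)]
  have h1 : ∀ i, ‖A (x i)‖ ^ 2 ≤ 2 * K ^ 2 * (‖x i 0‖ ^ 2 + ‖x i 1‖ ^ 2) := by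
    intro i
    have h2 := h (x i)
    have h3 : ‖A (x i)‖ ^ 2 ≤ (K * (‖x i 0‖ + ‖x i 1‖)) ^ 2 :=
      pow_le_pow_left₀ (norm_nonneg _) h2 2
    nlinarith [mul_nonneg (sq_nonneg K) (sq_nonneg (‖x i 0‖ - ‖x i 1‖))]
  calc ∑ i, ‖A (x i)‖ ^ 2 ≤ ∑ i, 2 * K ^ 2 * (‖x i 0‖ ^ 2 + ‖x i 1‖ ^ 2) :=
        Finset.sum_le_sum fun i _ => h1 i
    _ = 2 * K ^ 2 * (∑ i, ‖x i 0‖ ^ 2 + ∑ i, ‖x i 1‖ ^ 2) := by
        rw [← Finset.mul_sum, Finset.sum_add_distrib]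
    _ ≤ 2 * K ^ 2 * (weakTwo 𝕜 x ^ 2 + weakTwo 𝕜 x ^ 2) := by
        apply mul_le_mul_of_nonneg_left _ (by positivity)
        exact add_le_add (coord_sum_le 𝕜 x 0) (coord_sum_le 𝕜 x 1)
    _ = (2 * K * weakTwo 𝕜 x) ^ 2 := by ring

lemma norm_le_piTwo (A : (Fin 2 → 𝕜) →L[𝕜] (Fin 2 → 𝕜)) {x : Fin 2 → 𝕜} (hx : ‖x‖ ≤ 1) :
    ‖A x‖ ≤ piTwo 𝕜 A := by
  apply le_csInf
  · refine ⟨_, admissible 𝕜 A ‖A‖ (norm_nonneg _) ?_⟩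
    intro y
    refine (A.le_opNorm y).trans (mul_le_mul_of_nonneg_left ?_ (norm_nonneg _))
    rw [pi_norm_le_iff_of_nonneg (by positivity)]
    intro i
    fin_cases i
    · simp
    · simp
  · rintro C ⟨hC, h⟩
    exact norm_le_of_admissible hC h hx

/-- The coordinate functionals. -/
noncomputable abbrev pr (j : Fin 2) : (Fin 2 → 𝕜) →L[𝕜] 𝕜 :=
  ContinuousLinearMap.proj (R := 𝕜) (φ := fun _ : Fin 2 => 𝕜) j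

/-- The operator `(a, b) ↦ (a + b, a - b)`. -/
noncomputable def had : (Fin 2 → 𝕜) →L[𝕜] (Fin 2 → 𝕜) :=
  ContinuousLinearMap.pi (![pr 𝕜 0 + pr 𝕜 1, pr 𝕜 0 - pr 𝕜 1] : Fin 2 → ((Fin 2 → 𝕜) →L[𝕜] 𝕜))

lemma had_apply (x : Fin 2 → 𝕜) : had 𝕜 x = ![x 0 + x 1, x 0 - x 1] := by
  ext i
  fin_cases i <;> simp [had]

lemma had_unit : IsUnit (had 𝕜) := by
  have h2 : (2 : 𝕜) ≠ 0 := two_ne_zero
  have h0 : ∀ x : Fin 2 → 𝕜, had 𝕜 ((2 : 𝕜)⁻¹ • had 𝕜 x) = x := by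
    intro x
    rw [had_apply, had_apply]
    ext i
    fin_cases i
    · simp
      field_simp
      ring
    · simp
      field_simp
      ring
  have h : had 𝕜 * ((2 : 𝕜)⁻¹ • had 𝕜) = 1 := by
    apply ContinuousLinearMap.ext
    intro x
    exact h0 x
  have h' : ((2 : 𝕜)⁻¹ • had 𝕜) * had 𝕜 = 1 := by
    apply ContinuousLinearMap.ext
    intro x
    have h1 := h0 x
    rw [map_smul] at h1
    exact h1
  exact ⟨⟨had 𝕜, (2 : 𝕜)⁻¹ • had 𝕜, h, h'⟩, rfl⟩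

lemma norm_v1 : ‖(![1, 1] : Fin 2 → 𝕜)‖ ≤ 1 := by
  rw [pi_norm_le_iff_of_nonneg zero_le_one]
  intro i
  fin_cases i <;> simp

lemma norm_v2 : ‖(![1, -1] : Fin 2 → 𝕜)‖ ≤ 1 := by
  rw [pi_norm_le_iff_of_nonneg zero_le_one]
  intro i
  fin_cases i <;> simp

lemma piTwo_had : piTwo 𝕜 (had 𝕜) = 2 := by
  apply le_antisymm
  · apply csInf_le
    · exact ⟨0, fun C hC => hC.1⟩
    · have := admissible 𝕜 (had 𝕜) 1 zero_le_one ?_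
      · simpa using this
      · intro x
        rw [one_mul, had_apply, pi_norm_le_iff_of_nonneg (by positivity)]
        intro i
        fin_cases i
        · exact norm_add_le _ _
        · exact norm_sub_le _ _
  · have h := norm_le_piTwo 𝕜 (had 𝕜) (norm_v1 𝕜)
    have h2 : ‖(had 𝕜 ![1, 1]) 0‖ ≤ ‖had 𝕜 ![1, 1]‖ := norm_le_pi_norm _ 0
    have h3 : (had 𝕜 ![1, 1]) 0 = 2 := by
      rw [had_apply]
      simp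
      norm_num
    rw [h3] at h2
    have h4 : ‖(2 : 𝕜)‖ = 2 := by simp
    linarith

/-- The functional `A ↦ (A v)_j`. -/
noncomputable def fn (v : Fin 2 → 𝕜) (j : Fin 2) :
    ((Fin 2 → 𝕜) →L[𝕜] (Fin 2 → 𝕜)) →ₗ[𝕜] 𝕜 where
  toFun A := A v j
  map_add' _ _ := rfl
  map_smul' _ _ := rfl

lemma fn_norm {v : Fin 2 → 𝕜} {j : Fin 2} (hv : ‖v‖ ≤ 1) (h : had 𝕜 v j = 2) :
    dualNorm 𝕜 (fn 𝕜 v j) = 1 := by
  have h1 : ∀ A : (Fin 2 → 𝕜) →L[𝕜] (Fin 2 → 𝕜), ‖fn 𝕜 v j A‖ ≤ piTwo 𝕜 A := fun A =>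
    (norm_le_pi_norm (A v) j).trans (norm_le_piTwo 𝕜 A hv)
  apply le_antisymm
  · apply csInf_le
    · exact ⟨0, fun C hC => hC.1⟩
    · exact ⟨zero_le_one, fun A => by rw [one_mul]; exact h1 A⟩
  · apply le_csInf
    · exact ⟨1, zero_le_one, fun A => by rw [one_mul]; exact h1 A⟩
    · rintro C ⟨_, hC⟩
      have h2 := hC (had 𝕜)
      rw [piTwo_had] at h2
      have h3 : ‖fn 𝕜 v j (had 𝕜)‖ = 2 := by
        show ‖had 𝕜 v j‖ = 2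
        rw [h]
        simp
      rw [h3] at h2
      linarith

end Two

/-- Over the real and over the complex numbers: on `X = ℓ_∞²` (the space `𝕜²` with the maximum norm)
the invertible operator `T (a, b) = (a + b, a - b)` has `π₂(T) = 2`, and `Π₂(X, X)` is not smooth
at `T`. -/
theorem result (𝕜 : Type) [RCLike 𝕜] :
    ∃ T : (Fin 2 → 𝕜) →L[𝕜] (Fin 2 → 𝕜),
      (∀ x, T x = ![x 0 + x 1, x 0 - x 1]) ∧ IsUnit T ∧ piTwo 𝕜 T = 2 ∧ ¬ SmoothAt 𝕜 T := by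
  refine ⟨had 𝕜, had_apply 𝕜, had_unit 𝕜, piTwo_had 𝕜, ?_⟩
  rintro ⟨φ, -, hφ⟩
  have e1 : had 𝕜 ![1, 1] 0 = 2 := by
    rw [had_apply]
    simp
    norm_num
  have e2 : had 𝕜 ![1, -1] 1 = 2 := by
    rw [had_apply]
    simp
    norm_num
  have c : ((piTwo 𝕜 (had 𝕜) : ℝ) : 𝕜) = 2 := by
    rw [piTwo_had]
    exact RCLike.ofReal_ofNat 2
  have h1 := hφ (fn 𝕜 ![1, 1] 0) ⟨fn_norm 𝕜 (norm_v1 𝕜) e1, e1.trans c.symm⟩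
  have h2 := hφ (fn 𝕜 ![1, -1] 1) ⟨fn_norm 𝕜 (norm_v2 𝕜) e2, e2.trans c.symm⟩
  have h3 : fn 𝕜 ![1, 1] 0 = fn 𝕜 ![1, -1] 1 := h1.trans h2.symm
  let A : (Fin 2 → 𝕜) →L[𝕜] (Fin 2 → 𝕜) := ContinuousLinearMap.pi
    (![pr 𝕜 0, 0] : Fin 2 → ((Fin 2 → 𝕜) →L[𝕜] 𝕜))
  have h4 := congrArg (fun ψ => ψ A) h3
  have h5 : A ![1, 1] 0 = A ![1, -1] 1 := h4
  have h6 : A ![1, 1] 0 = 1 := rfl
  have h7 : A ![1, -1] 1 = 0 := rfl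
  rw [h6, h7] at h5
  exact one_ne_zero h5

end Pool.Agent.Results.MP_0c20fd_an.HadamardNotSmooth
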